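import Pool.Agent.Helper9.UP.StC

/-!
# Project UP (MP_d466de), part C, module DI: the dichotomy and the choice of the scale
-/

set_option autoImplicit false

noncomputable section

namespace Pool.Agent.Helper18.UP

open Finset Polynomial
open Pool.Agent.Helper9.UP

theorem gf_nn (f : ℤ[X]) (p : ℕ) : 0 ≤ gf f p := by
  unfold gf
  split_ifs
  · exact le_rfl
  · positivity

/-- the exponents -/
def uu (C₁ θ Λ : ℝ) (k : ℕ) : ℝ := (C₁ + 1) * Λ ^ 5 * (3 / θ) ^ k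

/-- the scales -/
def NN (C₁ θ Λ : ℝ) (k : ℕ) : ℕ := ⌊Real.exp (uu C₁ θ Λ k)⌋₊

theorem uu_succ (C₁ θ Λ : ℝ) (k : ℕ) (hθ : 0 < θ) :
    θ * uu C₁ θ Λ (k + 1) = 3 * uu C₁ θ Λ k := by
  unfold uu
  have h : θ * (3 / θ) = 3 := by field_simp
  calc θ * ((C₁ + 1) * Λ ^ 5 * (3 / θ) ^ (k + 1))
      = (C₁ + 1) * Λ ^ 5 * (3 / θ) ^ k * (θ * (3 / θ)) := by rw [pow_succ]; ring
    _ = 3 * ((C₁ + 1) * Λ ^ 5 * (3 / θ) ^ k) := by rw [h]; ring

/-- comparison of the two powers -/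
theorem pw {C₁ C₀ Λ : ℝ} (hC₁ : 0 < C₁) (hΛ1 : 1 ≤ Λ) (h : C₀ ≤ Λ) :
    C₀ * Λ ^ 3 ≤ (C₁ + 1) * Λ ^ 5 := by
  have h0 : 0 < Λ := by linarith
  have h1 : Λ ≤ Λ ^ 2 := le_self_pow₀ hΛ1 (by norm_num)
  have h2 : 0 < C₁ * Λ ^ 2 := by positivity
  have h4 : C₀ ≤ (C₁ + 1) * Λ ^ 2 := by linarith
  calc C₀ * Λ ^ 3 ≤ (C₁ + 1) * Λ ^ 2 * Λ ^ 3 := mul_le_mul_of_nonneg_right h4 (by positivity)
    _ = (C₁ + 1) * Λ ^ 5 := by ring

theorem uu_ge (C₁ θ Λ : ℝ) (hC : 0 < C₁) (hθ : 0 < θ) (hθ1 : θ < 1) (hΛ : 1 ≤ Λ) (k : ℕ) :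
    (C₁ + 1) * Λ ^ 5 ≤ uu C₁ θ Λ k := by
  unfold uu
  have h1 : (1 : ℝ) ≤ 3 / θ := by
    rw [le_div_iff₀ hθ]; linarith
  have h2 : (1 : ℝ) ≤ (3 / θ) ^ k := one_le_pow₀ h1
  have h3 : 0 ≤ (C₁ + 1) * Λ ^ 5 := by positivity
  nlinarith

theorem uu_mono (C₁ θ Λ : ℝ) (hC : 0 < C₁) (hθ : 0 < θ) (hθ1 : θ < 1) (hΛ : 1 ≤ Λ) {k m : ℕ}
    (h : k ≤ m) : uu C₁ θ Λ k ≤ uu C₁ θ Λ m := by
  unfold uu
  have h1 : (1 : ℝ) ≤ 3 / θ := by
    rw [le_div_iff₀ hθ]; linarith
  have h2 : (3 / θ) ^ k ≤ (3 / θ) ^ m := pow_le_pow_right₀ h1 h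
  have h3 : 0 ≤ (C₁ + 1) * Λ ^ 5 := by positivity
  exact mul_le_mul_of_nonneg_left h2 h3

theorem uu_one (C₁ θ Λ : ℝ) (hC : 0 < C₁) (hθ : 0 < θ) (hθ1 : θ < 1) (hΛ : 1 ≤ Λ) (k : ℕ) :
    1 ≤ uu C₁ θ Λ k := by
  have h := uu_ge C₁ θ Λ hC hθ hθ1 hΛ k
  have h5 : (1 : ℝ) ≤ Λ ^ 5 := one_le_pow₀ hΛ
  nlinarith

theorem floor_log {x : ℝ} (hx : 1 ≤ x) : 1 ≤ ⌊Real.exp x⌋₊ ∧ Real.log (⌊Real.exp x⌋₊ : ℝ) ≤ x ∧
    x - 1 ≤ Real.log (⌊Real.exp x⌋₊ : ℝ) := by
  have he : Real.exp 1 ≤ Real.exp x := Real.exp_le_exp.mpr hx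
  have he2 : (2 : ℝ) ≤ Real.exp 1 := by
    have := Real.add_one_le_exp (1 : ℝ); linarith
  have h1 : 1 ≤ ⌊Real.exp x⌋₊ := by
    rw [Nat.one_le_floor_iff]; linarith
  have h1' : (0 : ℝ) < (⌊Real.exp x⌋₊ : ℝ) := by exact_mod_cast h1
  refine ⟨h1, ?_, ?_⟩
  · rw [Real.log_le_iff_le_exp h1']
    exact Nat.floor_le (Real.exp_pos x).le
  · rw [Real.le_log_iff_exp_le h1']
    have h3 := Nat.lt_floor_add_one (Real.exp x)
    have h4 : Real.exp (x - 1) * Real.exp 1 = Real.exp x := by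
      rw [← Real.exp_add]; congr 1; ring
    have h5 : 1 ≤ Real.exp (x - 1) := by
      rw [Real.one_le_exp_iff]; linarith
    nlinarith

theorem ceil_log {x : ℝ} (hx : 0 ≤ x) : x ≤ Real.log (⌈Real.exp x⌉₊ : ℝ) ∧
    Real.log (⌈Real.exp x⌉₊ : ℝ) ≤ x + 1 := by
  have hp := Real.exp_pos x
  have h0 : (0 : ℝ) < (⌈Real.exp x⌉₊ : ℝ) := lt_of_lt_of_le hp (Nat.le_ceil _)
  constructor
  · rw [Real.le_log_iff_exp_le h0]
    exact Nat.le_ceil _
  · rw [Real.log_le_iff_le_exp h0]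
    have h1 := (Nat.ceil_lt_add_one hp.le).le
    have h2 : (1 : ℝ) ≤ Real.exp x := by
      rw [Real.one_le_exp_iff]; exact hx
    have he2 : (2 : ℝ) ≤ Real.exp 1 := by
      have := Real.add_one_le_exp (1 : ℝ); linarith
    rw [Real.exp_add]
    nlinarith

theorem hDI (hMT : StMT) (hRM : StRM) : StDI := by
  intro ω ε θ C₁ j0 Nm hω hε hθ hθ1 hC₁ hj0
  obtain ⟨ε₀, hε₀, N₀, hRM⟩ := hRM ω ε j0 Nm hω hε hj0
  obtain ⟨C₀, Λ₁, hC₀, hΛ₁, hMT⟩ := hMT
  set n₀ : ℕ := ⌈1600 / ε₀⌉₊ with hn₀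
  have hn₀' : 1600 / ε₀ ≤ n₀ := Nat.le_ceil _
  have hj0' : (1 : ℝ) ≤ (j0 : ℝ) := by exact_mod_cast hj0
  have hjω : 0 < (j0 : ℝ) * ω := by positivity
  set D : ℝ := (C₁ + 1) * (3 / θ) ^ n₀ with hD
  have hDpos : 0 < D := by positivity
  set C₂ : ℝ := (4 * (1 + 1 / ((j0 : ℝ) * ω)) + 1) * D with hC₂
  have hC₂D : D ≤ C₂ := by
    rw [hC₂]
    have : 0 < 1 / ((j0 : ℝ) * ω) := by positivity
    nlinarith
  have hC₂pos : 0 < C₂ := lt_of_lt_of_le hDpos hC₂D
  set A : ℝ := ((Nm : ℝ) + 2) * ω * C₂ with hA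
  have hApos : 0 < A := by positivity
  refine ⟨C₂, max Λ₁ (max C₀ (max (C₀ / ε₀) (max (N₀ : ℝ) (A * 720 * 4 ^ 6)))), ?_⟩
  intro Λ hΛ f hf
  have hΛ1 : Λ₁ ≤ Λ := le_trans (le_max_left _ _) hΛ
  have hΛr := le_trans (le_max_right _ _) hΛ
  have hΛ2 : C₀ ≤ Λ := le_trans (le_max_left _ _) hΛr
  have hΛr2 := le_trans (le_max_right _ _) hΛr
  have hΛ3 : C₀ / ε₀ ≤ Λ := le_trans (le_max_left _ _) hΛr2
  have hΛr3 := le_trans (le_max_right _ _) hΛr2
  have hΛ4 : (N₀ : ℝ) ≤ Λ := le_trans (le_max_left _ _) hΛr3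
  have hΛ5 : A * 720 * 4 ^ 6 ≤ Λ := le_trans (le_max_right _ _) hΛr3
  have hΛone : 1 ≤ Λ := hΛ₁.trans hΛ1
  have hΛpos : 0 < Λ := by linarith
  obtain ⟨hMT1, hMT2⟩ := hMT Λ hΛ1 f hf
  have hug := uu_ge C₁ θ Λ hC₁ hθ hθ1 hΛone
  have hu1 := uu_one C₁ θ Λ hC₁ hθ hθ1 hΛone
  have hΛ5one : (1 : ℝ) ≤ Λ ^ 5 := one_le_pow₀ hΛone
  have hΛ3pos : 0 < Λ ^ 3 := by positivity
  have huD : uu C₁ θ Λ n₀ = D * Λ ^ 5 := by rw [hD]; unfold uu; ring
  by_cases hcase : ∃ k, k < n₀ ∧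
      ∑ p ∈ (range (NN C₁ θ Λ (k + 1) + 1)).filter
        (fun p : ℕ => p.Prime ∧ (NN C₁ θ Λ (k + 1) : ℝ) ^ θ < (p : ℝ)), gf f p ≤ 1 / 200
  · obtain ⟨k, hk, hsum⟩ := hcase
    refine ⟨NN C₁ θ Λ (k + 1), ?_, ?_, Or.inr hsum⟩
    · have h := (floor_log (hu1 (k + 1))).2.2
      have h2 := hug (k + 1)
      unfold NN
      linarith
    · have h := (floor_log (hu1 (k + 1))).2.1
      have h2 := uu_mono C₁ θ Λ hC₁ hθ hθ1 hΛone (show k + 1 ≤ n₀ by omega)
      unfold NN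
      rw [huD] at h2
      have h3 : D * Λ ^ 5 ≤ C₂ * Λ ^ 5 := mul_le_mul_of_nonneg_right hC₂D (by positivity)
      linarith
  · push Not at hcase
    -- the sum over the large primes
    have hG : ∀ k, k ≤ n₀ → (k : ℝ) / 200 ≤
        ∑ p ∈ (range (NN C₁ θ Λ k + 1)).filter
          (fun p : ℕ => p.Prime ∧ C₀ * Λ ^ 3 < Real.log p), gf f p := by
      intro k
      induction k with
      | zero =>
        intro _
        have : 0 ≤ ∑ p ∈ (range (NN C₁ θ Λ 0 + 1)).filter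
          (fun p : ℕ => p.Prime ∧ C₀ * Λ ^ 3 < Real.log p), gf f p :=
          Finset.sum_nonneg (fun p _ => gf_nn f p)
        simpa using this
      | succ k ih =>
        intro hk
        have ih := ih (by omega)
        have hw := hcase k (by omega)
        -- logarithmic lower bound for the new window
        have hlow : ∀ p : ℕ, (NN C₁ θ Λ (k + 1) : ℝ) ^ θ < (p : ℝ) →
            uu C₁ θ Λ k < Real.log p := by
          intro p hp
          have hf1 := (floor_log (hu1 (k + 1))).1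
          have hpos : (0 : ℝ) < (NN C₁ θ Λ (k + 1) : ℝ) := by
            unfold NN; exact_mod_cast hf1
          have hpos2 : 0 < (NN C₁ θ Λ (k + 1) : ℝ) ^ θ := Real.rpow_pos_of_pos hpos θ
          have h1 := Real.log_lt_log hpos2 hp
          rw [Real.log_rpow hpos] at h1
          have h2 := (floor_log (hu1 (k + 1))).2.2
          have h3 := uu_succ C₁ θ Λ k hθ
          have h4 := hu1 k
          have h5 : uu C₁ θ Λ (k + 1) - 1 ≤ Real.log (NN C₁ θ Λ (k + 1) : ℝ) := h2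
          have h6 : θ * (uu C₁ θ Λ (k + 1) - 1) ≤ θ * Real.log (NN C₁ θ Λ (k + 1) : ℝ) :=
            mul_le_mul_of_nonneg_left h5 hθ.le
          rw [mul_sub, h3, mul_one] at h6
          linarith
        have hdisj : Disjoint ((range (NN C₁ θ Λ k + 1)).filter
            (fun p : ℕ => p.Prime ∧ C₀ * Λ ^ 3 < Real.log p))
            ((range (NN C₁ θ Λ (k + 1) + 1)).filter
              (fun p : ℕ => p.Prime ∧ (NN C₁ θ Λ (k + 1) : ℝ) ^ θ < (p : ℝ))) := by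
          rw [Finset.disjoint_left]
          intro p hp1 hp2
          rw [mem_filter, mem_range] at hp1 hp2
          have h1 := hlow p hp2.2.2
          have hp0 : (0 : ℝ) < (p : ℝ) := by exact_mod_cast hp1.2.1.pos
          have h2 : (p : ℝ) ≤ (NN C₁ θ Λ k : ℝ) := by exact_mod_cast (by omega : p ≤ NN C₁ θ Λ k)
          have h3 := Real.log_le_log hp0 h2
          have h4 := (floor_log (hu1 k)).2.1
          have h5 : Real.log (NN C₁ θ Λ k : ℝ) ≤ uu C₁ θ Λ k := h4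
          linarith
        have hsub : (range (NN C₁ θ Λ k + 1)).filter
            (fun p : ℕ => p.Prime ∧ C₀ * Λ ^ 3 < Real.log p) ∪
            ((range (NN C₁ θ Λ (k + 1) + 1)).filter
              (fun p : ℕ => p.Prime ∧ (NN C₁ θ Λ (k + 1) : ℝ) ^ θ < (p : ℝ))) ⊆
            (range (NN C₁ θ Λ (k + 1) + 1)).filter
              (fun p : ℕ => p.Prime ∧ C₀ * Λ ^ 3 < Real.log p) := by
          intro p hp
          rw [mem_union] at hp
          rcases hp with hp | hp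
          · rw [mem_filter, mem_range] at hp ⊢
            refine ⟨?_, hp.2⟩
            have : NN C₁ θ Λ k ≤ NN C₁ θ Λ (k + 1) := by
              unfold NN
              exact Nat.floor_le_floor (Real.exp_le_exp.mpr
                (uu_mono C₁ θ Λ hC₁ hθ hθ1 hΛone (Nat.le_succ k)))
            omega
          · rw [mem_filter] at hp ⊢
            refine ⟨hp.1, hp.2.1, ?_⟩
            have h1 := hlow p hp.2.2
            have h2 := hug k
            have h3 : C₀ * Λ ^ 3 ≤ (C₁ + 1) * Λ ^ 5 := pw hC₁ hΛone hΛ2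
            linarith
        have hle := Finset.sum_le_sum_of_subset_of_nonneg hsub
          (fun p _ _ => gf_nn f p)
        rw [Finset.sum_union hdisj] at hle
        push_cast
        linarith
    set u : ℝ := uu C₁ θ Λ n₀ with hu
    have hu1' : 1 ≤ u := hu1 n₀
    set x : ℝ := 4 * u * (1 + 1 / ((j0 : ℝ) * ω)) with hx
    have hinv : 0 < 1 / ((j0 : ℝ) * ω) := by positivity
    have huinv : 0 < u * (1 / ((j0 : ℝ) * ω)) := by positivity
    have hx4 : 4 * u ≤ x := by rw [hx, mul_add, mul_one, mul_assoc 4 u]; linarith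
    have hxpos : 0 ≤ x := by linarith
    obtain ⟨hN1, hN2⟩ := ceil_log hxpos
    set N : ℕ := ⌈Real.exp x⌉₊ with hN
    have hugn := hug n₀
    have hNup : Real.log N ≤ C₂ * Λ ^ 5 := by
      have : x + 1 ≤ (4 * (1 + 1 / ((j0 : ℝ) * ω)) + 1) * u := by
        rw [hx, add_mul, one_mul]
        have e : 4 * u * (1 + 1 / ((j0 : ℝ) * ω)) = 4 * (1 + 1 / ((j0 : ℝ) * ω)) * u := by ring
        linarith
      calc Real.log N ≤ x + 1 := hN2
        _ ≤ (4 * (1 + 1 / ((j0 : ℝ) * ω)) + 1) * u := this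
        _ = C₂ * Λ ^ 5 := by rw [huD, hC₂]; ring
    refine ⟨N, ?_, hNup, Or.inl ?_⟩
    · have : (C₁ + 1) * Λ ^ 5 ≤ u := hugn
      linarith
    · apply hRM f N
      · have h1 : (N : ℝ) ≥ Real.exp x := Nat.le_ceil _
        have h2 := Real.add_one_le_exp x
        have h3 : (C₁ + 1) * Λ ^ 5 ≤ u := hugn
        have h4 : Λ ≤ Λ ^ 5 := le_self_pow₀ hΛone (by norm_num)
        have h6 : 0 < C₁ * Λ ^ 5 := by positivity
        have h5 : (N₀ : ℝ) ≤ (N : ℝ) := by linarith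
        exact_mod_cast h5
      · intro Y hY1 hY2
        have h2u : 2 * u ≤ Real.log Y := by
          refine le_trans ?_ hY1
          have h3 : (j0 : ℝ) * ω / 2 * x ≤ (j0 : ℝ) * ω / 2 * Real.log N :=
            mul_le_mul_of_nonneg_left hN1 (by positivity)
          refine le_trans ?_ h3
          rw [hx]
          have h4 : (j0 : ℝ) * ω / 2 * (4 * u * (1 + 1 / ((j0 : ℝ) * ω))) =
              2 * u * ((j0 : ℝ) * ω) + 2 * u := by
            field_simp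
            ring
          rw [h4]
          have h5 : 0 < u * ((j0 : ℝ) * ω) := by positivity
          linarith
        have hYpos : 0 < Y := by
          rcases Nat.eq_zero_or_pos Y with h | h
          · subst h
            simp at h2u
            linarith
          · exact h
        have hYpos' : (0 : ℝ) < (Y : ℝ) := by exact_mod_cast hYpos
        have hlogY : Real.log Y ≤ Real.exp (Λ / 4) := by
          have h1 : Real.log Y ≤ A * Λ ^ 5 := by
            refine le_trans hY2 ?_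
            have : ((Nm : ℝ) + 2) * ω * Real.log N ≤ ((Nm : ℝ) + 2) * ω * (C₂ * Λ ^ 5) :=
              mul_le_mul_of_nonneg_left hNup (by positivity)
            refine le_trans this (le_of_eq ?_)
            rw [hA]; ring
          have h2 := Real.pow_div_factorial_le_exp (Λ / 4) (by positivity) 6
          have h3 : A * Λ ^ 5 ≤ (Λ / 4) ^ 6 / (Nat.factorial 6 : ℝ) := by
            have h4 : (Nat.factorial 6 : ℝ) = 720 := by norm_num [Nat.factorial]
            rw [h4, le_div_iff₀ (by norm_num : (0 : ℝ) < 720), div_pow,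
              le_div_iff₀ (by norm_num : (0 : ℝ) < 4 ^ 6)]
            calc A * Λ ^ 5 * 720 * 4 ^ 6 = (A * 720 * 4 ^ 6) * Λ ^ 5 := by ring
              _ ≤ Λ * Λ ^ 5 := mul_le_mul_of_nonneg_right hΛ5 (by positivity)
              _ = Λ ^ 6 := by ring
          linarith
        have hz2 : (NN C₁ θ Λ n₀) ^ 2 ≤ Y := by
          have h1 : ((NN C₁ θ Λ n₀ : ℕ) : ℝ) ≤ Real.exp u := by
            unfold NN
            exact Nat.floor_le (Real.exp_pos _).le
          have h2 : Real.exp (2 * u) ≤ (Y : ℝ) := by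
            rw [← Real.le_log_iff_exp_le hYpos']; exact h2u
          have h3 : ((NN C₁ θ Λ n₀ : ℕ) : ℝ) ^ 2 ≤ (Y : ℝ) := by
            calc ((NN C₁ θ Λ n₀ : ℕ) : ℝ) ^ 2 ≤ Real.exp u ^ 2 := by
                  gcongr
              _ = Real.exp (2 * u) := by
                  rw [← Real.exp_nat_mul]; norm_num
              _ ≤ (Y : ℝ) := h2
          exact_mod_cast h3
        have hsmall : C₀ * Λ ^ 3 ≤ ε₀ / 2 * Real.log Y := by
          have h1 : C₀ ≤ ε₀ * Λ := by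
            rw [div_le_iff₀ hε₀] at hΛ3
            linarith
          have h2 : C₀ ≤ ε₀ * Λ ^ 2 := by
            have : Λ ≤ Λ ^ 2 := le_self_pow₀ hΛone (by norm_num)
            exact h1.trans (mul_le_mul_of_nonneg_left this hε₀.le)
          have h3 : C₀ * Λ ^ 3 ≤ ε₀ * Λ ^ 5 := by
            calc C₀ * Λ ^ 3 ≤ ε₀ * Λ ^ 2 * Λ ^ 3 := mul_le_mul_of_nonneg_right h2 hΛ3pos.le
              _ = ε₀ * Λ ^ 5 := by ring
          have h4 : Λ ^ 5 ≤ u := by
            have : (C₁ + 1) * Λ ^ 5 ≤ u := hugn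
            have h6 : 0 < C₁ * Λ ^ 5 := by positivity
            linarith
          have h5 : ε₀ * Λ ^ 5 ≤ ε₀ * u := mul_le_mul_of_nonneg_left h4 hε₀.le
          have h6 : ε₀ / 2 * (2 * u) ≤ ε₀ / 2 * Real.log Y :=
            mul_le_mul_of_nonneg_left h2u (by positivity)
          linarith
        have hlogpos : 0 < Real.log Y := by linarith
        have hGn := hG n₀ le_rfl
        set G : ℝ := ∑ p ∈ (range (NN C₁ θ Λ n₀ + 1)).filter
          (fun p : ℕ => p.Prime ∧ C₀ * Λ ^ 3 < Real.log p), gf f p with hGdef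
        have hG8 : 8 / ε₀ ≤ G := by
          have h1 : (1600 / ε₀) / 200 ≤ (n₀ : ℝ) / 200 := by
            apply div_le_div_of_nonneg_right hn₀' (by norm_num)
          have h2 : (1600 / ε₀) / 200 = 8 / ε₀ := by
            field_simp; norm_num
          linarith
        have hGpos : 0 < G := lt_of_lt_of_le (by positivity) hG8
        have hup := hMT1 Y (by omega) hlogY
        have hC₀u : C₀ * Λ ^ 3 ≤ Real.log Y := by
          have h2 : C₀ * Λ ^ 3 ≤ (C₁ + 1) * Λ ^ 5 := pw hC₁ hΛone hΛ2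
          have h3 : (C₁ + 1) * Λ ^ 5 ≤ u := hugn
          linarith
        have hlo := hMT2 Y (NN C₁ θ Λ n₀) G hC₀u hlogY hz2 hGdef hGpos
        have hfrac : 4 * Real.log Y / G ≤ ε₀ / 2 * Real.log Y := by
          rw [div_le_iff₀ hGpos]
          have h1 : 8 ≤ G * ε₀ := by
            rwa [div_le_iff₀ hε₀] at hG8
          calc 4 * Real.log Y = 8 * (Real.log Y / 2) := by ring
            _ ≤ G * ε₀ * (Real.log Y / 2) := mul_le_mul_of_nonneg_right h1 (by positivity)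
            _ = ε₀ / 2 * Real.log Y * G := by ring
        rw [abs_le]
        constructor
        · linarith
        · linarith

end Pool.Agent.Helper18.UP
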